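import Pool.Agent.H28.GU.TargetsC

/-!
# Cleaning in one variable
-/

set_option autoImplicit false
set_option linter.unusedVariables false

open Finset

namespace Pool.Agent.H13.GU

open Pool.Agent.H28.GU

/-- counting along the lines in direction `i` -/
theorem card_lines {d q : ℕ} [NeZero q] (i : Fin (d + 1))
    (T : (Fin d → ZMod q) → Finset (ZMod q)) (S' : Finset (Fin (d + 1) → ZMod q))
    (h : ∀ (t : ZMod q) (z : Fin d → ZMod q),
      (Fin.insertNth (α := fun _ => ZMod q) i t z ∈ S' ↔ t ∈ T z)) :
    S'.card = ∑ z, (T z).card := by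
  classical
  have h1 : S'.card = ∑ s : Fin (d + 1) → ZMod q, if s ∈ S' then 1 else 0 := by
    rw [Finset.sum_ite_mem, Finset.univ_inter, Finset.card_eq_sum_ones]
  rw [h1, ← Equiv.sum_comp (Fin.insertNthEquiv (fun _ : Fin (d + 1) => ZMod q) i),
    Fintype.sum_prod_type_right]
  refine Finset.sum_congr rfl fun z _ => ?_
  have h2 : ∀ t : ZMod q, (if (Fin.insertNthEquiv (fun _ : Fin (d + 1) => ZMod q) i) (t, z) ∈ S'
      then 1 else 0) = if t ∈ T z then 1 else 0 := by
    intro t
    have := h t z
    change (if Fin.insertNth (α := fun _ => ZMod q) i t z ∈ S' then 1 else 0) = _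
    by_cases hm : t ∈ T z
    · rw [if_pos hm, if_pos (this.2 hm)]
    · rw [if_neg hm, if_neg (fun h' => hm (this.1 h'))]
  rw [Finset.sum_congr rfl fun t _ => h2 t, Finset.sum_ite_mem, Finset.univ_inter,
    Finset.card_eq_sum_ones]

theorem pf_CL1 (hDL : T_DL) (hC2 : T_C2) (hC3 : T_C3) : T_CL1 := by
  intro δ hδ
  obtain ⟨c3, hc3, hC3'⟩ := hC3 ((δ / 2) ^ 8) (by positivity)
  refine ⟨δ / 2 * c3, by positivity, ?_⟩
  intro d q _ u S τ i hu hS hτ
  classical
  cases d with
  | zero => exact i.elim0
  | succ d =>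
  obtain ⟨-, hD2, -, -, hD5⟩ := hDL
  have hq : (0 : ℝ) < q := by exact_mod_cast (Fact.out : q.Prime).pos
  let ins : ZMod q → (Fin d → ZMod q) → Fin (d + 1) → ZMod q :=
    fun t z => Fin.insertNth (α := fun _ => ZMod q) i t z
  let L : (Fin d → ZMod q) → Finset (ZMod q) := fun z => Finset.univ.filter (fun t => ins t z ∈ S)
  have hL : S.card = ∑ z, (L z).card := card_lines i L S (fun t z => by simp [L, ins])
  -- good lines
  let Gd : Finset (Fin d → ZMod q) :=
    Finset.univ.filter (fun z => δ / 2 * q ≤ ((L z).card : ℝ))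
  have hGd : δ / 2 * (q : ℝ) ^ d ≤ (Gd.card : ℝ) := by
    have h1 : (S.card : ℝ) ≤ Gd.card * q + δ / 2 * q * q ^ d := by
      rw [hL, Nat.cast_sum, ← Finset.sum_filter_add_sum_filter_not Finset.univ
        (fun z => δ / 2 * q ≤ ((L z).card : ℝ))]
      refine add_le_add ?_ ?_
      · calc ∑ z ∈ Finset.univ.filter (fun z => δ / 2 * q ≤ ((L z).card : ℝ)), ((L z).card : ℝ)
            ≤ ∑ z ∈ Gd, (q : ℝ) := by
              refine Finset.sum_le_sum fun z _ => ?_
              have := Finset.card_le_univ (L z)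
              rw [ZMod.card] at this
              exact_mod_cast this
          _ = Gd.card * q := by rw [Finset.sum_const, nsmul_eq_mul]
      · calc ∑ z ∈ Finset.univ.filter (fun z => ¬ δ / 2 * q ≤ ((L z).card : ℝ)), ((L z).card : ℝ)
            ≤ ∑ z ∈ Finset.univ.filter (fun z => ¬ δ / 2 * q ≤ ((L z).card : ℝ)), δ / 2 * q := by
              refine Finset.sum_le_sum fun z hz => ?_
              exact (not_le.1 (Finset.mem_filter.1 hz).2).le
          _ ≤ ∑ z : Fin d → ZMod q, δ / 2 * q := by
              refine Finset.sum_le_sum_of_subset_of_nonneg (Finset.filter_subset _ _) ?_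
              intros
              positivity
          _ = δ / 2 * q * q ^ d := by
              rw [Finset.sum_const, nsmul_eq_mul, Finset.card_univ, Fintype.card_fun, ZMod.card,
                Fintype.card_fin]
              push_cast
              ring
    have h2 : δ / 2 * (q : ℝ) ^ d * q ≤ Gd.card * q := by
      have h3 : δ * (q : ℝ) ^ (d + 1) = δ / 2 * q ^ d * q + δ / 2 * q * q ^ d := by ring
      linarith
    exact le_of_mul_le_mul_right h2 hq
  -- the sets on the good lines
  have hgood : ∀ z, ∃ T : Finset (ZMod q), (∀ t ∈ T, ins t z ∈ S) ∧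
      (z ∈ Gd → c3 * q ≤ (T.card : ℝ)) ∧ Frei T (fun t => τ (ins t z)) := by
    intro z
    by_cases hz : z ∈ Gd
    · have hz' : δ / 2 * q ≤ ((L z).card : ℝ) := (Finset.mem_filter.1 hz).2
      have hE := hC2 q (Dl d z u) (L z) (fun t => τ (ins t z)) (δ / 2) (hD5 _ d z u hu)
        (by positivity) hz' (by
          intro t ht
          have ht' : ins t z ∈ S := (Finset.mem_filter.1 ht).2
          have h1 : (fun n => Dl d z u n * Dl d z u (n + t)) = Dl (d + 1) (ins t z) u := by
            funext n
            rw [hD2 _ d (ins t z) i u n]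
            have e1 : i.removeNth (ins t z) = z := by simp [ins]
            have e2 : ins t z i = t := by simp [ins]
            rw [e1, e2]
          rw [h1]
          refine le_trans ?_ (hτ _ ht')
          have : δ / 2 ≤ δ := by linarith
          exact mul_le_mul_of_nonneg_right this hq.le)
      obtain ⟨T, hT1, hT2, hT3⟩ := hC3' q (L z) (fun t => τ (ins t z)) hE
      exact ⟨T, fun t ht => (Finset.mem_filter.1 (hT1 ht)).2, fun _ => hT2, hT3⟩
    · refine ⟨∅, by simp, fun h => absurd h hz, ?_⟩
      intro x y hx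
      exact absurd (hx 0) (by simp)
  choose T hT1 hT2 hT3 using hgood
  let S' : Finset (Fin (d + 1) → ZMod q) := Finset.univ.filter (fun s => s i ∈ T (i.removeNth s))
  have hS' : ∀ s, s ∈ S' ↔ s i ∈ T (i.removeNth s) := fun s => by simp [S']
  have hcard : S'.card = ∑ z, (T z).card := by
    refine card_lines i T S' (fun t z => ?_)
    rw [hS', Fin.insertNth_apply_same, Fin.removeNth_insertNth]
  refine ⟨S', ?_, ?_, ?_⟩
  · intro s hs
    have h1 := hT1 _ _ ((hS' s).1 hs)
    have h2 : ins (s i) (i.removeNth s) = s := Fin.insertNth_self_removeNth i s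
    rwa [h2] at h1
  · calc δ / 2 * c3 * (q : ℝ) ^ (d + 1) = (δ / 2 * (q : ℝ) ^ d) * (c3 * q) := by ring
      _ ≤ Gd.card * (c3 * q) := mul_le_mul_of_nonneg_right hGd (by positivity)
      _ = ∑ z ∈ Gd, c3 * q := by rw [Finset.sum_const, nsmul_eq_mul]
      _ ≤ ∑ z ∈ Gd, ((T z).card : ℝ) := Finset.sum_le_sum fun z hz => hT2 z hz
      _ ≤ ∑ z, ((T z).card : ℝ) := Finset.sum_le_sum_of_subset_of_nonneg
          (Finset.subset_univ _) (fun _ _ _ => by positivity)
      _ = (S'.card : ℝ) := by rw [hcard, Nat.cast_sum]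
  · intro z x y hx hy hxy
    have hz : ∀ t, Function.update z i t = ins t (i.removeNth z) :=
      fun t => (Fin.insertNth_removeNth i t z).symm
    have hmem : ∀ t, Function.update z i t ∈ S' → t ∈ T (i.removeNth z) := by
      intro t ht
      rw [hz, hS'] at ht
      have e1 : i.removeNth (ins t (i.removeNth z)) = i.removeNth z := by simp [ins]
      have e2 : ins t (i.removeNth z) i = t := by simp [ins]
      rwa [e1, e2] at ht
    have := hT3 (i.removeNth z) x y (fun j => hmem _ (hx j)) (fun j => hmem _ (hy j)) hxy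
    simp only [hz]
    exact this

end Pool.Agent.H13.GU
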